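import Mathlib

/-!
# Selective high divergence of Pixley-Roy hyperspaces (MP_3a5480_gt, Q1)

If `X` is selectively highly divergent then so is its Pixley-Roy hyperspace `F[X]`.  No separation
axiom is needed.

Proof.  Given nonempty open sets `O n` of `F[X]` take basic sets `[F n, V n] ⊆ O n`, choose
`x n ∈ V n` without convergent subsequences and put `H n = F n ∪ {x n}`.  If a subsequence of `H`
converges to `H₀` in `F[X]`, then the corresponding subsequence of `x` is eventually in every open
set that contains the finite set `H₀`.  A sequence with this property has a subsequence that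
converges to one of the points of `H₀`: otherwise there are, for the points `a₁, …, a_m` of `H₀`
one after the other, open sets `W_i` with `a_i ∈ W_i` and infinite sets of indices
`A₁ ⊇ A₂ ⊇ … ⊇ A_m` such that the sequence is outside `W_i` on `A_i`; so it is infinitely often
outside the open set `W₁ ∪ … ∪ W_m ⊇ H₀`.
-/

set_option autoImplicit false

namespace Pool.Agent.Results.MP_3a5480_gt.PixleyRoySHD

open Set Filter Topology

universe u

/-- The sequence `x` has no convergent subsequences. -/
def NoConvergentSubsequence {X : Type u} [TopologicalSpace X] (x : ℕ → X) : Prop :=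
  ∀ φ : ℕ → ℕ, StrictMono φ → ∀ a : X, ¬ Tendsto (fun n => x (φ n)) atTop (𝓝 a)

/-- `X` is selectively highly divergent: for every sequence of nonempty open sets one can choose
a point in each of them so that the resulting sequence has no convergent subsequences. -/
def SelectivelyHighlyDivergent (X : Type u) [TopologicalSpace X] : Prop :=
  ∀ U : ℕ → Set X, (∀ n, IsOpen (U n)) → (∀ n, (U n).Nonempty) →
    ∃ x : ℕ → X, (∀ n, x n ∈ U n) ∧ NoConvergentSubsequence x

/-- The underlying set of the Pixley-Roy hyperspace: the nonempty finite subsets of `X`. -/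
def PixleyRoy (X : Type u) : Type u := {A : Set X // A.Nonempty ∧ A.Finite}

/-- The set `[F, V] = {H | F ⊆ H ⊆ V}`. -/
def box {X : Type u} (F : PixleyRoy X) (V : Set X) : Set (PixleyRoy X) :=
  {H | F.1 ⊆ H.1 ∧ H.1 ⊆ V}

/-- The Pixley-Roy topology: a set `O` of nonempty finite subsets of `X` is open if for every
`F ∈ O` there is an open set `V` of `X` with `F ⊆ V` and `[F, V] ⊆ O`. -/
instance pixleyRoyTopology (X : Type u) [TopologicalSpace X] : TopologicalSpace (PixleyRoy X) where
  IsOpen O := ∀ F ∈ O, ∃ V : Set X, IsOpen V ∧ F.1 ⊆ V ∧ box F V ⊆ O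
  isOpen_univ := fun F _ => ⟨univ, isOpen_univ, subset_univ _, subset_univ _⟩
  isOpen_inter := by
    rintro O O' h h' F ⟨hF, hF'⟩
    obtain ⟨V, hV, hFV, hO⟩ := h F hF
    obtain ⟨V', hV', hFV', hO'⟩ := h' F hF'
    exact ⟨V ∩ V', hV.inter hV', subset_inter hFV hFV', fun H hH =>
      ⟨hO ⟨hH.1, hH.2.trans inter_subset_left⟩, hO' ⟨hH.1, hH.2.trans inter_subset_right⟩⟩⟩
  isOpen_sUnion := by
    rintro S h F ⟨O, hO, hF⟩
    obtain ⟨V, hV, hFV, hVO⟩ := h O hO F hF
    exact ⟨V, hV, hFV, hVO.trans (subset_sUnion_of_mem hO)⟩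

variable {X : Type u} [TopologicalSpace X]

lemma isOpen_iff {O : Set (PixleyRoy X)} :
    IsOpen O ↔ ∀ F ∈ O, ∃ V : Set X, IsOpen V ∧ F.1 ⊆ V ∧ box F V ⊆ O := Iff.rfl

lemma isOpen_box (F : PixleyRoy X) {V : Set X} (hV : IsOpen V) : IsOpen (box F V) := by
  rw [isOpen_iff]
  rintro H ⟨hFH, hHV⟩
  exact ⟨V, hV, hHV, fun K hK => ⟨hFH.trans hK.1, hK.2⟩⟩

/-- The sets `[F, V]` with `V` open and `F ⊆ V` form a local base at `F`. -/
lemma nhds_basis (F : PixleyRoy X) :
    (𝓝 F).HasBasis (fun V : Set X => IsOpen V ∧ F.1 ⊆ V) (box F) := by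
  constructor
  intro O
  constructor
  · intro hO
    obtain ⟨O', hO', hopen, hF⟩ := mem_nhds_iff.1 hO
    obtain ⟨V, hV, hFV, h⟩ := hopen F hF
    exact ⟨V, ⟨hV, hFV⟩, h.trans hO'⟩
  · rintro ⟨V, ⟨hV, hFV⟩, h⟩
    exact mem_of_superset ((isOpen_box F hV).mem_nhds ⟨subset_rfl, hFV⟩) h

/-- If no subsequence of `s` converges to a point of the finite set `H`, then every infinite set
of indices contains an infinite set on which `s` avoids an open set that contains `H`. -/
lemma avoid (s : ℕ → X) {H : Set X} (hH : H.Finite)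
    (h : ∀ a ∈ H, ∀ φ : ℕ → ℕ, StrictMono φ → ¬ Tendsto (fun n => s (φ n)) atTop (𝓝 a)) :
    ∀ A : Set ℕ, A.Infinite → ∃ W : Set X, IsOpen W ∧ H ⊆ W ∧
      ∃ A' ⊆ A, A'.Infinite ∧ ∀ n ∈ A', s n ∉ W := by
  classical
  induction H, hH using Set.Finite.induction_on with
  | empty =>
    intro A hA
    exact ⟨∅, isOpen_empty, empty_subset _, A, subset_rfl, hA, fun n _ => notMem_empty _⟩
  | @insert a H _ _ ih =>
    intro A hA
    obtain ⟨W, hW, hHW, A', hA'A, hA', hout⟩ :=
      ih (fun b hb => h b (mem_insert_of_mem _ hb)) A hA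
    have : Infinite A' := hA'.to_subtype
    have hmono : StrictMono (Nat.orderEmbeddingOfSet A') := (Nat.orderEmbeddingOfSet A').strictMono
    have hrange : ∀ k, Nat.orderEmbeddingOfSet A' k ∈ A' := fun k => by
      have := mem_range_self (f := Nat.orderEmbeddingOfSet A') k
      rwa [Nat.orderEmbeddingOfSet_range] at this
    obtain ⟨U, hU, hfreq⟩ := not_tendsto_iff_exists_frequently_notMem.1
      (h a (mem_insert _ _) _ hmono)
    obtain ⟨U', hU'U, hU'o, haU'⟩ := mem_nhds_iff.1 hU
    refine ⟨U' ∪ W, hU'o.union hW, insert_subset (Or.inl haU') (hHW.trans subset_union_right),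
      (Nat.orderEmbeddingOfSet A') '' {k | s (Nat.orderEmbeddingOfSet A' k) ∉ U}, ?_, ?_, ?_⟩
    · rintro _ ⟨k, _, rfl⟩
      exact hA'A (hrange k)
    · exact (Nat.frequently_atTop_iff_infinite.1 hfreq).image hmono.injective.injOn
    · rintro _ ⟨k, hk, rfl⟩ hmem
      rcases hmem with hmem | hmem
      · exact hk (hU'U hmem)
      · exact hout _ (hrange k) hmem

/-- A sequence which is eventually in every open set that contains the finite set `H` has a
subsequence that converges to a point of `H`. -/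
lemma exists_subseq (s : ℕ → X) {H : Set X} (hH : H.Finite)
    (h : ∀ V : Set X, IsOpen V → H ⊆ V → ∀ᶠ n in atTop, s n ∈ V) :
    ∃ a ∈ H, ∃ φ : ℕ → ℕ, StrictMono φ ∧ Tendsto (fun n => s (φ n)) atTop (𝓝 a) := by
  by_contra hcon
  push Not at hcon
  obtain ⟨W, hW, hHW, A', _, hA', hout⟩ := avoid s hH hcon univ infinite_univ
  obtain ⟨N, hN⟩ := eventually_atTop.1 (h W hW hHW)
  obtain ⟨n, hn, hNn⟩ := hA'.exists_gt N
  exact hout n hn (hN n hNn.le)

/-- **Q1, full answer.**  The Pixley-Roy hyperspace of a selectively highly divergent space (with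
or without separation axioms) is selectively highly divergent. -/
theorem result (X : Type u) [TopologicalSpace X] (hX : SelectivelyHighlyDivergent X) :
    SelectivelyHighlyDivergent (PixleyRoy X) := by
  intro O hO hne
  choose F hF using hne
  choose V hV hFV hbox using fun n => isOpen_iff.1 (hO n) (F n) (hF n)
  obtain ⟨x, hxV, hx⟩ := hX V hV fun n => (F n).2.1.mono (hFV n)
  refine ⟨fun n => ⟨(F n).1 ∪ {x n}, (F n).2.1.mono subset_union_left,
    (F n).2.2.union (finite_singleton _)⟩, fun n => hbox n ⟨subset_union_left,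
      union_subset (hFV n) (singleton_subset_iff.2 (hxV n))⟩, ?_⟩
  intro φ hφ H hlim
  obtain ⟨a, _, ψ, hψ, hψlim⟩ := exists_subseq (fun n => x (φ n)) H.2.2 (by
    intro W hW hHW
    have := (nhds_basis H).tendsto_right_iff.1 hlim W ⟨hW, hHW⟩
    exact this.mono fun n hn => hn.2 (Or.inr rfl))
  exact hx (fun n => φ (ψ n)) (hφ.comp hψ) a hψlim

end Pool.Agent.Results.MP_3a5480_gt.PixleyRoySHD
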